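import Mathlib

/-!
# Definitions for MP_122225_al

Left amenability, left reversibility and the Klawe condition for monoids; the left random walk
Markov operator of a finite generating family and its spectral radius on `ℓ²`.
-/

open Filter Topology

namespace Pool.Agent.Lib.MP_122225_al

/-- The monoid `S` is left amenable: there is a finitely additive probability measure `μ` on all
subsets of `S` with `μ (a⁻¹ A) = μ A`, where `a⁻¹ A = {s | a * s ∈ A}`. -/
def LeftAmenable (S : Type) [Monoid S] : Prop :=
  ∃ μ : Set S → ℝ, (∀ A, 0 ≤ μ A) ∧ μ Set.univ = 1 ∧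
    (∀ A B, Disjoint A B → μ (A ∪ B) = μ A + μ B) ∧
    ∀ (a : S) (A : Set S), μ {s | a * s ∈ A} = μ A

/-- The monoid `S` is left reversible: `a S ∩ b S ≠ ∅` for all `a, b`. -/
def LeftReversible (S : Type) [Monoid S] : Prop :=
  ∀ a b : S, ∃ c d : S, a * c = b * d

/-- The Klawe condition: if `s x = s y` then `x t = y t` for some `t`. -/
def KlaweCondition (S : Type) [Monoid S] : Prop :=
  ∀ s x y : S, s * x = s * y → ∃ t : S, x * t = y * t

/-- The entry `M_{st} = |{i : x_i s = t}| / k` of the left random walk Markov operator of the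
family `X = (x_i)`, where `k` is the number of indices. -/
noncomputable def walkMatrix {S ι : Type} [Monoid S] [Fintype ι] (X : ι → S) (s t : S) : ℝ :=
  (Nat.card {i : ι // X i * s = t} : ℝ) / (Fintype.card ι : ℝ)

/-- The row vector `v M`, that is, `(v M)(t) = ∑_s v(s) M_{st}`. -/
noncomputable def walkMap {S ι : Type} [Monoid S] [Fintype ι] (X : ι → S) (v : S → ℝ) : S → ℝ :=
  fun t => ∑' s, v s * walkMatrix X s t

/-- `M_X` is defined: it maps `ℓ²(S)` into itself (and the series defining it converge). -/
def WalkDefined {S ι : Type} [Monoid S] [Fintype ι] (X : ι → S) : Prop :=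
  ∀ v : S → ℝ, Memℓp v 2 →
    (∀ t, Summable fun s => v s * walkMatrix X s t) ∧ Memℓp (walkMap X v) 2

/-- The real Hilbert space `ℓ²(S)`. -/
abbrev Ell2 (S : Type) : Type := lp (fun _ : S => ℝ) 2

/-- The bounded linear operators on the real Hilbert space `ℓ²(S)`. -/
abbrev Op (S : Type) : Type := Ell2 S →L[ℝ] Ell2 S

/-- The operator norm on `ℓ²(S)`. -/
noncomputable def opNorm {S : Type} (T : Op S) : ℝ := ‖T‖

/-- The power `T ^ n` of a bounded operator. -/
noncomputable def opPow {S : Type} (T : Op S) (n : ℕ) : Op S := T ^ n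

/-- The function `T v` on `S`, for `v` in `ℓ²(S)`. -/
noncomputable def opApply {S : Type} (T : Op S) (v : Ell2 S) : S → ℝ := ⇑(T v)

/-- `T` is the operator `M_X` on the real Hilbert space `ℓ²(S)`. -/
def IsWalkOperator {S ι : Type} [Monoid S] [Fintype ι] (X : ι → S) (T : Op S) : Prop :=
  ∀ v : Ell2 S, opApply T v = walkMap X v

/-- The bounded operator `T` has spectral radius `ρ = lim ‖T ^ n‖ ^ (1 / n)`. -/
def HasSpectralRadius {S : Type} (T : Op S) (ρ : ℝ) : Prop :=
  Tendsto (fun n : ℕ => opNorm (opPow T n) ^ (1 / (n : ℝ))) atTop (𝓝 ρ)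

end Pool.Agent.Lib.MP_122225_al
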