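import Pool.Agent.Lib.MP_122225_al.Defs

/-!
# A criterion for non-amenability

Two permutations `sP`, `tP` of `ℕ ⊕ ℕ` such that no monoid with a homomorphism to the
permutations of `ℕ ⊕ ℕ` hitting both of them is left amenable.
-/

namespace Pool.Agent.Lib.MP_122225_al

/-- exchange of the two copies -/
def sP : Equiv.Perm (ℕ ⊕ ℕ) := Equiv.sumComm ℕ ℕ

/-- the permutation of order three `inl n → inr (2 n) → inr (2 n + 1) → inl n` -/
def tP : Equiv.Perm (ℕ ⊕ ℕ) where
  toFun := fun y => match y with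
    | Sum.inl n => Sum.inr (2 * n)
    | Sum.inr m => if m % 2 = 0 then Sum.inr (m + 1) else Sum.inl (m / 2)
  invFun := fun y => match y with
    | Sum.inl n => Sum.inr (2 * n + 1)
    | Sum.inr m => if m % 2 = 0 then Sum.inl (m / 2) else Sum.inr (m - 1)
  left_inv := by
    rintro (n | m)
    · simp
    · by_cases h : m % 2 = 0
      · have h2 : ¬ (m + 1) % 2 = 0 := by omega
        simp [h, h2]
      · simp only [h, if_false]
        congr 1
        omega
  right_inv := by
    rintro (n | m)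
    · have h2 : ¬ (2 * n + 1) % 2 = 0 := by omega
      simp only [h2, if_false]
      congr 1
      omega
    · by_cases h : m % 2 = 0
      · simp only [h, if_true]
        congr 1
        omega
      · have h2 : (m - 1) % 2 = 0 := by omega
        simp only [h, if_false, h2, if_true]
        congr 1
        omega

theorem sP_inl (n : ℕ) : sP (Sum.inl n) = Sum.inr n := rfl
theorem sP_inr (n : ℕ) : sP (Sum.inr n) = Sum.inl n := rfl
theorem tP_inl (n : ℕ) : tP (Sum.inl n) = Sum.inr (2 * n) := rfl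
theorem tP_inr_even (m : ℕ) (h : m % 2 = 0) : tP (Sum.inr m) = Sum.inr (m + 1) := by
  change (if m % 2 = 0 then Sum.inr (m + 1) else Sum.inl (m / 2)) = _
  rw [if_pos h]
theorem tP_inr_odd (m : ℕ) (h : ¬ m % 2 = 0) : tP (Sum.inr m) = Sum.inl (m / 2) := by
  change (if m % 2 = 0 then Sum.inr (m + 1) else Sum.inl (m / 2)) = _
  rw [if_neg h]

theorem not_leftAmenable {S : Type} [Monoid S] (π : S →* Equiv.Perm (ℕ ⊕ ℕ))
    (a b : S) (ha : π a = sP) (hb : π b = tP) : ¬ LeftAmenable S := by
  rintro ⟨μ, hpos, huniv, hadd, hinv⟩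
  let ν : Set (ℕ ⊕ ℕ) → ℝ := fun A => μ {x | π x (Sum.inl 0) ∈ A}
  have hνinv : ∀ (c : S) (A : Set (ℕ ⊕ ℕ)), ν {y | π c y ∈ A} = ν A := by
    intro c A
    have := hinv c {x | π x (Sum.inl 0) ∈ A}
    simp only [Set.mem_ofPred_eq, map_mul, Equiv.Perm.mul_apply] at this
    exact this
  have hνadd : ∀ A B : Set (ℕ ⊕ ℕ), Disjoint A B → ν (A ∪ B) = ν A + ν B := by
    intro A B hAB
    have h1 : Disjoint {x : S | π x (Sum.inl 0) ∈ A} {x : S | π x (Sum.inl 0) ∈ B} := by
      rw [Set.disjoint_left] at hAB ⊢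
      intro x hx hx2
      exact hAB hx hx2
    have h2 := hadd _ _ h1
    have h3 : {x : S | π x (Sum.inl 0) ∈ A ∪ B} =
        {x : S | π x (Sum.inl 0) ∈ A} ∪ {x : S | π x (Sum.inl 0) ∈ B} := by
      ext x; simp
    simp only [ν]
    rw [h3, h2]
  have hνuniv : ν Set.univ = 1 := by
    simp only [ν, Set.mem_univ, Set.ofPred_true]
    exact huniv
  set A0 : Set (ℕ ⊕ ℕ) := {y | ∃ n, y = Sum.inl n} with hA0
  set E : Set (ℕ ⊕ ℕ) := {y | ∃ m, m % 2 = 0 ∧ y = Sum.inr m} with hE
  set O : Set (ℕ ⊕ ℕ) := {y | ∃ m, ¬ m % 2 = 0 ∧ y = Sum.inr m} with hO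
  have e1 : {y | π a y ∈ A0} = E ∪ O := by
    rw [ha]
    ext y
    rcases y with n | m
    · simp [hA0, hE, hO, sP_inl]
    · simp only [hA0, hE, hO, sP_inr, Set.mem_ofPred_eq, Set.mem_union]
      constructor
      · intro _
        by_cases h : m % 2 = 0
        · exact Or.inl ⟨m, h, rfl⟩
        · exact Or.inr ⟨m, h, rfl⟩
      · intro _
        exact ⟨m, rfl⟩
  have e2 : {y | π b y ∈ A0} = O := by
    rw [hb]
    ext y
    rcases y with n | m
    · simp [hA0, hO, tP_inl]
    · by_cases h : m % 2 = 0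
      · simp [hA0, hO, tP_inr_even m h, h]
      · simp only [hA0, hO, tP_inr_odd m h, Set.mem_ofPred_eq]
        constructor
        · intro _
          exact ⟨m, h, rfl⟩
        · intro _
          exact ⟨m / 2, rfl⟩
  have e3 : {y | π b y ∈ O} = E := by
    rw [hb]
    ext y
    rcases y with n | m
    · simp [hE, hO, tP_inl]
    · by_cases h : m % 2 = 0
      · have h2 : ¬ (m + 1) % 2 = 0 := by omega
        simp only [hE, hO, tP_inr_even m h, Set.mem_ofPred_eq]
        constructor
        · intro _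
          exact ⟨m, h, rfl⟩
        · intro _
          exact ⟨m + 1, h2, rfl⟩
      · simp only [hE, hO, tP_inr_odd m h, Set.mem_ofPred_eq]
        constructor
        · rintro ⟨m', _, h'⟩
          simp at h'
        · rintro ⟨m', h', h''⟩
          simp only [Sum.inr.injEq] at h''
          omega
  have e4 : A0 ∪ (E ∪ O) = Set.univ := by
    ext y
    rcases y with n | m
    · simp [hA0]
    · simp only [hA0, hE, hO, Set.mem_union, Set.mem_ofPred_eq, Set.mem_univ, iff_true]
      by_cases h : m % 2 = 0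
      · exact Or.inr (Or.inl ⟨m, h, rfl⟩)
      · exact Or.inr (Or.inr ⟨m, h, rfl⟩)
  have d1 : Disjoint E O := by
    rw [Set.disjoint_left]
    rintro y ⟨m, hm, rfl⟩ ⟨m', hm', h⟩
    simp only [Sum.inr.injEq] at h
    omega
  have d2 : Disjoint A0 (E ∪ O) := by
    rw [Set.disjoint_left]
    rintro y ⟨n, rfl⟩ (⟨m', _, h⟩ | ⟨m', _, h⟩) <;> simp at h
  have f1 := hνinv a A0
  have f2 := hνinv b A0
  have f3 := hνinv b O
  rw [e1] at f1
  rw [e2] at f2
  rw [e3] at f3
  have f4 := hνadd E O d1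
  have f5 := hνadd A0 (E ∪ O) d2
  rw [e4, hνuniv] at f5
  linarith

end Pool.Agent.Lib.MP_122225_al
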