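import Pool.Agent.Lib.MP_122225_al.Schur
import Pool.Agent.Lib.MP_122225_al.Paradox

/-!
# A group with a generating family whose walk operator has norm one but which is not amenable
-/

namespace Pool.Agent.Lib.MP_122225_al

theorem sP_sq : sP * sP = 1 := by
  ext1 y
  rcases y with n | n <;> rfl

theorem tP_cube : tP * tP * tP = 1 := by
  ext1 y
  rcases y with n | n
  · rw [Equiv.Perm.mul_apply, Equiv.Perm.mul_apply, tP_inl, tP_inr_even _ (by omega),
      tP_inr_odd _ (by omega), Equiv.Perm.one_apply]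
    congr 1
    omega
  · by_cases h : n % 2 = 0
    · rw [Equiv.Perm.mul_apply, Equiv.Perm.mul_apply, tP_inr_even _ h,
        tP_inr_odd _ (by omega), tP_inl, Equiv.Perm.one_apply]
      congr 1
      omega
    · rw [Equiv.Perm.mul_apply, Equiv.Perm.mul_apply, tP_inr_odd _ h, tP_inl,
        tP_inr_even _ (by omega), Equiv.Perm.one_apply]
      congr 1
      omega

/-- The group generated by the two permutations. -/
abbrev G₀ : Type := (Subgroup.closure ({sP, tP} : Set (Equiv.Perm (ℕ ⊕ ℕ))))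

/-- first generator -/
def sG : G₀ := ⟨sP, Subgroup.subset_closure (by simp)⟩
/-- second generator -/
def tG : G₀ := ⟨tP, Subgroup.subset_closure (by simp)⟩

theorem sG_sq : sG * sG = 1 := Subtype.ext sP_sq
theorem tG_cube : tG * tG * tG = 1 := Subtype.ext tP_cube

/-- The generating family `s, s t, s t t`. -/
def Y₀ : Fin 3 → G₀ := ![sG, sG * tG, sG * tG * tG]

theorem tG_ne_one : tG ≠ 1 := by
  intro h
  have h1 : (tG : Equiv.Perm (ℕ ⊕ ℕ)) (Sum.inl 0) = Sum.inl 0 := by rw [h]; rfl
  have h2 : (tG : Equiv.Perm (ℕ ⊕ ℕ)) (Sum.inl 0) = Sum.inr 0 := rfl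
  rw [h2] at h1
  simp at h1

theorem tG_sq_ne_one : tG * tG ≠ 1 := by
  intro h
  apply tG_ne_one
  have := tG_cube
  rw [h, one_mul] at this
  exact this

theorem Y₀_injective : Function.Injective Y₀ := by
  have h1 := tG_ne_one
  have h2 := tG_sq_ne_one
  intro i j h
  fin_cases i <;> fin_cases j <;> simp [Y₀, mul_assoc] at h ⊢
  · exact h1 h
  · exact h2 h
  · exact h1 h
  · exact h1 h
  · exact h2 h
  · exact h1 h

theorem Y₀_closure : Submonoid.closure (Set.range Y₀) = ⊤ := by
  rw [eq_top_iff]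
  set M := Submonoid.closure (Set.range Y₀) with hM
  have hs : sG ∈ M := Submonoid.subset_closure ⟨0, rfl⟩
  have hst : sG * tG ∈ M := Submonoid.subset_closure ⟨1, rfl⟩
  have ht : tG ∈ M := by
    have := M.mul_mem hs hst
    rwa [← mul_assoc, sG_sq, one_mul] at this
  have hs' : sG⁻¹ ∈ M := by
    have : sG⁻¹ = sG := inv_eq_of_mul_eq_one_right sG_sq
    rw [this]
    exact hs
  have ht' : tG⁻¹ ∈ M := by
    have : tG⁻¹ = tG * tG := inv_eq_of_mul_eq_one_right (by rw [← mul_assoc]; exact tG_cube)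
    rw [this]
    exact M.mul_mem ht ht
  rintro ⟨g, hg⟩ _
  have key : ∀ (g : Equiv.Perm (ℕ ⊕ ℕ))
      (hg : g ∈ Subgroup.closure ({sP, tP} : Set (Equiv.Perm (ℕ ⊕ ℕ)))),
      (⟨g, hg⟩ : G₀) ∈ M ∧ (⟨g, hg⟩ : G₀)⁻¹ ∈ M := by
    intro g hg
    induction hg using Subgroup.closure_induction with
    | mem x hx =>
      rcases hx with rfl | hx
      · exact ⟨hs, hs'⟩
      · rw [Set.mem_singleton_iff] at hx
        subst hx
        exact ⟨ht, ht'⟩
    | one => exact ⟨M.one_mem, by
        have : ((1 : G₀)⁻¹) ∈ M := by rw [inv_one]; exact M.one_mem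
        exact this⟩
    | mul x y hx hy h1 h2 =>
      refine ⟨M.mul_mem h1.1 h2.1, ?_⟩
      have := M.mul_mem h2.2 h1.2
      rw [← mul_inv_rev] at this
      exact this
    | inv x hx h =>
      refine ⟨h.2, ?_⟩
      have h3 : ((⟨x, hx⟩ : G₀)⁻¹)⁻¹ ∈ M := by rw [inv_inv]; exact h.1
      exact h3
  exact (key g hg).1

theorem Y₀_fibre : FibreBound Y₀ 1 := by
  intro i t
  refine ⟨{(Y₀ i)⁻¹ * t}, by simp, ?_⟩
  intro s hs
  rw [Finset.mem_singleton, ← hs, inv_mul_cancel_left]

theorem Y₀_norm : ‖walkOp Y₀_fibre‖ = 1 := by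
  classical
  apply le_antisymm
  · have := norm_walkOp_le Y₀_fibre
    simpa using this
  · have h1 := tG_ne_one
    have h2 := tG_sq_ne_one
    have hc := tG_cube
    have h12 : tG ≠ tG * tG := by
      intro h
      have h3 : tG = 1 := by
        have := congrArg (fun x => tG⁻¹ * x) h
        simpa using this.symm
      exact h1 h3
    refine one_le_norm_walkOp Y₀_fibre {1, tG, tG * tG} {sG, sG * tG, sG * tG * tG} ?_ ?_
      ⟨1, by simp⟩ ?_
    · rw [Finset.card_eq_three.2 ⟨1, tG, tG * tG, h1.symm, h2.symm, h12, rfl⟩]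
      rfl
    · rw [Finset.card_eq_three.2 ⟨sG, sG * tG, sG * tG * tG, ?_, ?_, ?_, rfl⟩]
      · rfl
      · intro h; apply h1; simpa using h
      · intro h; apply h2; rw [mul_assoc] at h; simpa using h
      · intro h; apply h12; rw [mul_assoc] at h; exact mul_left_cancel h
    · have a1 : Y₀ 0 = sG := rfl
      have a2 : Y₀ 1 = sG * tG := rfl
      have a3 : Y₀ 2 = sG * tG * tG := rfl
      have b1 : tG * (tG * tG) = 1 := by rw [← mul_assoc]; exact hc
      have b2 : tG * (tG * (tG * tG)) = tG := by rw [b1, mul_one]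
      intro u hu s hs
      simp only [Finset.mem_insert, Finset.mem_singleton] at hu hs
      rcases hu with rfl | rfl | rfl <;> rcases hs with rfl | rfl | rfl
      · exact ⟨0, by rw [a1, mul_one]⟩
      · exact ⟨2, by rw [a3, mul_assoc, mul_assoc, b1, mul_one]⟩
      · exact ⟨1, by rw [a2, mul_assoc, b1, mul_one]⟩
      · exact ⟨1, by rw [a2, mul_one]⟩
      · exact ⟨0, by rw [a1]⟩
      · exact ⟨2, by rw [a3, mul_assoc, mul_assoc, b2]⟩
      · exact ⟨2, by rw [a3, mul_one]⟩
      · exact ⟨1, by rw [a2]⟩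
      · exact ⟨0, by rw [a1, mul_assoc]⟩

theorem G₀_not_leftAmenable : ¬ LeftAmenable G₀ :=
  not_leftAmenable (Subgroup.subtype _) sG tG rfl rfl

end Pool.Agent.Lib.MP_122225_al
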