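import Pool.Agent.Lib.MP_122225_al.Schur
import Pool.Agent.Lib.MP_122225_al.Paradox

/-!
# The counterexample: a wreath product of a finite semilattice by a free group

The elements are pairs `(C, g)` with `C` a finite subset of `Γ × Fin B` and `g ∈ Γ`, with product
`(C, g) (D, h) = (C ∪ g D, g h)`.
-/

namespace Pool.Agent.Lib.MP_122225_al

/-- pairs `(C, g)` -/
@[ext] structure Lamp (Γ : Type) (B : ℕ) where
  set : Finset (Γ × Fin B)
  pos : Γ

section general

variable {Γ : Type} [Group Γ] [DecidableEq Γ] {B : ℕ}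

/-- the translate `g C` -/
def shift (g : Γ) (C : Finset (Γ × Fin B)) : Finset (Γ × Fin B) :=
  C.image (fun p => (g * p.1, p.2))

theorem shift_one (C : Finset (Γ × Fin B)) : shift 1 C = C := by
  unfold shift; simp

theorem shift_shift (g h : Γ) (C : Finset (Γ × Fin B)) :
    shift g (shift h C) = shift (g * h) C := by
  unfold shift
  rw [Finset.image_image]
  congr 1
  funext p
  simp [mul_assoc]

theorem shift_union (g : Γ) (C D : Finset (Γ × Fin B)) :
    shift g (C ∪ D) = shift g C ∪ shift g D := Finset.image_union _ _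

theorem shift_empty (g : Γ) : shift g (∅ : Finset (Γ × Fin B)) = ∅ := rfl

theorem shift_inv_shift (g : Γ) (C : Finset (Γ × Fin B)) : shift g⁻¹ (shift g C) = C := by
  rw [shift_shift, inv_mul_cancel, shift_one]

theorem shift_shift_inv (g : Γ) (C : Finset (Γ × Fin B)) : shift g (shift g⁻¹ C) = C := by
  rw [shift_shift, mul_inv_cancel, shift_one]

instance : Monoid (Lamp Γ B) where
  mul a b := ⟨a.set ∪ shift a.pos b.set, a.pos * b.pos⟩
  one := ⟨∅, 1⟩
  mul_assoc := by
    intro a b c
    change (⟨(a.set ∪ shift a.pos b.set) ∪ shift (a.pos * b.pos) c.set, a.pos * b.pos * c.pos⟩ :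
      Lamp Γ B) = ⟨a.set ∪ shift a.pos (b.set ∪ shift b.pos c.set), a.pos * (b.pos * c.pos)⟩
    rw [shift_union, shift_shift, Finset.union_assoc, mul_assoc]
  one_mul := by
    intro a
    change (⟨∅ ∪ shift 1 a.set, 1 * a.pos⟩ : Lamp Γ B) = a
    rw [shift_one, Finset.empty_union, one_mul]
  mul_one := by
    intro a
    change (⟨a.set ∪ shift a.pos ∅, a.pos * 1⟩ : Lamp Γ B) = a
    rw [shift_empty, Finset.union_empty, mul_one]

theorem Lamp.mul_def (a b : Lamp Γ B) :
    a * b = ⟨a.set ∪ shift a.pos b.set, a.pos * b.pos⟩ := rfl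
theorem Lamp.one_def : (1 : Lamp Γ B) = ⟨∅, 1⟩ := rfl

theorem lamp_leftReversible : LeftReversible (Lamp Γ B) := by
  intro a b
  refine ⟨⟨shift a.pos⁻¹ (a.set ∪ b.set), a.pos⁻¹⟩, ⟨shift b.pos⁻¹ (a.set ∪ b.set), b.pos⁻¹⟩, ?_⟩
  rw [Lamp.mul_def, Lamp.mul_def]
  simp only [shift_shift_inv, mul_inv_cancel]
  congr 1
  rw [← Finset.union_assoc, Finset.union_idempotent, Finset.union_comm a.set b.set,
    ← Finset.union_assoc, Finset.union_idempotent]

theorem lamp_klawe : KlaweCondition (Lamp Γ B) := by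
  intro s x y h
  rw [Lamp.mul_def, Lamp.mul_def] at h
  have hpos : x.pos = y.pos := by
    have := congrArg Lamp.pos h
    simpa using this
  refine ⟨⟨shift x.pos⁻¹ (x.set ∪ y.set), 1⟩, ?_⟩
  rw [Lamp.mul_def, Lamp.mul_def, ← hpos]
  simp only [shift_shift_inv]
  congr 1
  rw [← Finset.union_assoc, Finset.union_idempotent, Finset.union_comm x.set y.set,
    ← Finset.union_assoc, Finset.union_idempotent]

theorem lamp_fibre (x t : Lamp Γ B) (hx : x.set.card ≤ B) :
    ∃ F : Finset (Lamp Γ B), F.card ≤ 2 ^ B ∧ ∀ s, x * s = t → s ∈ F := by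
  classical
  refine ⟨x.set.powerset.image
    (fun U => (⟨shift x.pos⁻¹ ((t.set \ x.set) ∪ U), x.pos⁻¹ * t.pos⟩ : Lamp Γ B)), ?_, ?_⟩
  · calc _ ≤ x.set.powerset.card := Finset.card_image_le
      _ = 2 ^ x.set.card := Finset.card_powerset _
      _ ≤ 2 ^ B := Nat.pow_le_pow_right (by norm_num) hx
  · intro s hs
    rw [Lamp.mul_def] at hs
    subst hs
    rw [Finset.mem_image]
    refine ⟨x.set ∩ shift x.pos s.set, ?_, ?_⟩
    · rw [Finset.mem_powerset]
      exact Finset.inter_subset_left
    · ext1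
      · simp only
        have : (x.set ∪ shift x.pos s.set) \ x.set ∪ x.set ∩ shift x.pos s.set =
            shift x.pos s.set := by
          ext p
          simp only [Finset.mem_union, Finset.mem_sdiff, Finset.mem_inter]
          tauto
        rw [this, shift_inv_shift]
      · simp

end general

/-! ### The concrete example -/

/-- The free group on two generators. -/
abbrev Γ₂ : Type := FreeGroup Bool

/-- The action of the free group on `ℕ ⊕ ℕ`. -/
def act : Γ₂ →* Equiv.Perm (ℕ ⊕ ℕ) := FreeGroup.lift (fun b => if b then tP else sP)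

theorem act_false : act (FreeGroup.of false) = sP := by simp [act]
theorem act_true : act (FreeGroup.of true) = tP := by simp [act]

/-- The element `s t`. -/
def g₀ : Γ₂ := FreeGroup.of false * FreeGroup.of true

theorem act_g₀ (n : ℕ) : act g₀ (Sum.inl n) = Sum.inl (2 * n) := by
  unfold g₀
  rw [map_mul, act_false, act_true, Equiv.Perm.mul_apply, tP_inl, sP_inr]

theorem act_g₀_pow (i : ℕ) : (act (g₀ ^ i)) (Sum.inl 1) = Sum.inl (2 ^ i) := by
  induction i with
  | zero => simp
  | succ i ih =>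
    rw [pow_succ', map_mul, Equiv.Perm.mul_apply, ih, act_g₀, pow_succ']

theorem g₀_pow_injective : Function.Injective (fun i : ℕ => g₀ ^ i) := by
  intro i j hij
  have h := congrArg (fun g => act g (Sum.inl 1)) hij
  simp only [act_g₀_pow, Sum.inl.injEq] at h
  exact Nat.pow_right_injective le_rfl h

/-- The monoid of the counterexample. -/
abbrev S₀ : Type := Lamp Γ₂ 8

/-- The index set of the generating family (13 indices). -/
abbrev I₀ : Type := Fin 8 ⊕ (Bool × Bool) ⊕ Unit

/-- the full lamp set at the identity -/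
def K₀ : Finset (Γ₂ × Fin 8) := Finset.univ.image (fun j : Fin 8 => ((1 : Γ₂), j))

/-- The generating family: eight lamps at the identity, the generators of the free group
and their inverses, and the element `(K₀, s t)`. -/
def X₀ : I₀ → S₀
  | Sum.inl j => ⟨{(1, j)}, 1⟩
  | Sum.inr (Sum.inl (b, c)) => ⟨∅, if c then FreeGroup.of b else (FreeGroup.of b)⁻¹⟩
  | Sum.inr (Sum.inr ()) => ⟨K₀, g₀⟩

theorem card_I₀ : Fintype.card I₀ = 13 := by decide

theorem X₀_closure : Submonoid.closure (Set.range X₀) = ⊤ := by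
  classical
  rw [eq_top_iff]
  have h1 : ∀ g : Γ₂, (⟨∅, g⟩ : S₀) ∈ Submonoid.closure (Set.range X₀) := by
    intro g
    induction g using FreeGroup.induction_on with
    | C1 => exact Submonoid.one_mem _
    | of b => exact Submonoid.subset_closure ⟨Sum.inr (Sum.inl (b, true)), rfl⟩
    | inv_of b _ => exact Submonoid.subset_closure ⟨Sum.inr (Sum.inl (b, false)), rfl⟩
    | mul x y hx hy =>
      have := Submonoid.mul_mem _ hx hy
      rw [Lamp.mul_def] at this
      simpa [shift_empty] using this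
  have h2 : ∀ p : Γ₂ × Fin 8, (⟨{p}, 1⟩ : S₀) ∈ Submonoid.closure (Set.range X₀) := by
    rintro ⟨h, j⟩
    have hk : (⟨{(1, j)}, 1⟩ : S₀) ∈ Submonoid.closure (Set.range X₀) :=
      Submonoid.subset_closure ⟨Sum.inl j, rfl⟩
    have := Submonoid.mul_mem _ (Submonoid.mul_mem _ (h1 h) hk) (h1 h⁻¹)
    rw [Lamp.mul_def, Lamp.mul_def] at this
    simpa [shift_empty, shift] using this
  have h3 : ∀ C : Finset (Γ₂ × Fin 8), (⟨C, 1⟩ : S₀) ∈ Submonoid.closure (Set.range X₀) := by
    intro C
    induction C using Finset.induction_on with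
    | empty => exact Submonoid.one_mem _
    | insert p C _ ih =>
      have := Submonoid.mul_mem _ (h2 p) ih
      rw [Lamp.mul_def] at this
      simpa [shift_one] using this
  rintro ⟨C, g⟩ _
  have := Submonoid.mul_mem _ (h3 C) (h1 g)
  rw [Lamp.mul_def] at this
  simpa [shift_empty] using this

theorem X₀_card (i : I₀) : (X₀ i).set.card ≤ 8 := by
  rcases i with j | ⟨b, c⟩ | ⟨⟩
  · simp [X₀]
  · simp [X₀]
  · simp only [X₀, K₀]
    exact Finset.card_image_le.trans (by simp)

theorem X₀_fibre : FibreBound X₀ (2 ^ 8) := fun i t => lamp_fibre (X₀ i) t (X₀_card i)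

theorem X₀_injective : Function.Injective X₀ := by
  have hof : ∀ b c b' c' : Bool,
      (if c then (FreeGroup.of b : Γ₂) else (FreeGroup.of b)⁻¹) =
        (if c' then FreeGroup.of b' else (FreeGroup.of b')⁻¹) → b = b' ∧ c = c' := by
    decide
  rintro (j | ⟨b, c⟩ | ⟨⟩) (j' | ⟨b', c'⟩ | ⟨⟩) h
  · have := congrArg Lamp.set h
    simp only [X₀, Finset.singleton_inj, Prod.mk.injEq, true_and] at this
    rw [this]
  · have := congrArg Lamp.set h
    simp [X₀] at this
  · exfalso
    have h1 := congrArg (fun x : S₀ => act x.pos (Sum.inl 1)) h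
    simp only [X₀, act_g₀] at h1
    simp at h1
  · have := congrArg Lamp.set h
    simp [X₀] at this
  · have := congrArg Lamp.pos h
    simp only [X₀] at this
    obtain ⟨rfl, rfl⟩ := hof b c b' c' this
    rfl
  · exfalso
    have := congrArg Lamp.set h
    simp only [X₀, K₀] at this
    have h2 : ((1 : Γ₂), (0 : Fin 8)) ∈ (∅ : Finset (Γ₂ × Fin 8)) := by
      rw [this]
      simp
    simp at h2
  · exfalso
    have h1 := congrArg (fun x : S₀ => act x.pos (Sum.inl 1)) h
    simp only [X₀, act_g₀] at h1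
    simp at h1
  · exfalso
    have := congrArg Lamp.set h
    simp only [X₀, K₀] at this
    have h2 : ((1 : Γ₂), (0 : Fin 8)) ∈ (∅ : Finset (Γ₂ × Fin 8)) := by
      rw [← this]
      simp
    simp at h2
  · rfl

/-- The lamp set of the `n`-th power of the last generator. -/
def Kn (n : ℕ) : Finset (Γ₂ × Fin 8) :=
  (Finset.range n ×ˢ (Finset.univ : Finset (Fin 8))).image (fun p => (g₀ ^ p.1, p.2))

theorem card_Kn (n : ℕ) : (Kn n).card = 8 * n := by
  unfold Kn
  rw [Finset.card_image_of_injective]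
  · simp [mul_comm]
  · rintro ⟨i, j⟩ ⟨i', j'⟩ h
    simp only [Prod.mk.injEq] at h
    rw [g₀_pow_injective h.1, h.2]

theorem X₀_pow (n : ℕ) : X₀ (Sum.inr (Sum.inr ())) ^ n = ⟨Kn n, g₀ ^ n⟩ := by
  induction n with
  | zero => simp [Kn, Lamp.one_def]
  | succ n ih =>
    rw [pow_succ, ih, Lamp.mul_def]
    simp only [X₀]
    ext1
    · simp only
      ext p
      simp only [Kn, shift, K₀, Finset.mem_union, Finset.mem_image, Finset.mem_product,
        Finset.mem_range, Finset.mem_univ, and_true, true_and, Prod.exists]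
      constructor
      · rintro (⟨i, j, hi, rfl⟩ | ⟨_, j, ⟨j', h⟩, rfl⟩)
        · exact ⟨i, j, by omega, rfl⟩
        · refine ⟨n, j, by omega, ?_⟩
          simp only [Prod.mk.injEq] at h
          rw [← h.1, mul_one]
      · rintro ⟨i, j, hi, rfl⟩
        by_cases h : i = n
        · subst h
          exact Or.inr ⟨1, j, ⟨j, rfl⟩, by simp⟩
        · exact Or.inl ⟨i, j, by omega, rfl⟩
    · simp [pow_succ]

theorem X₀_norm (n : ℕ) : (16 / 13 : ℝ) ^ n ≤ ‖walkOp X₀_fibre ^ n‖ := by
  classical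
  have hinj : Function.Injective
      (fun D : Finset (Γ₂ × Fin 8) => (⟨shift (g₀ ^ n)⁻¹ D, 1⟩ : S₀)) := by
    intro D D' h
    have h1 := congrArg Lamp.set h
    simp only at h1
    have h2 := congrArg (shift (g₀ ^ n)) h1
    rwa [shift_shift_inv, shift_shift_inv] at h2
  have h := norm_pow_ge X₀_fibre (Sum.inr (Sum.inr ())) n ⟨Kn n, g₀ ^ n⟩
    ((Kn n).powerset.image (fun D => (⟨shift (g₀ ^ n)⁻¹ D, 1⟩ : S₀))) (by
      intro s hs
      obtain ⟨D, hD, rfl⟩ := Finset.mem_image.1 hs
      rw [X₀_pow, Lamp.mul_def]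
      simp only [shift_shift_inv, mul_one]
      congr 1
      exact Finset.union_eq_left.2 (Finset.mem_powerset.1 hD))
  rw [Finset.card_image_of_injective _ hinj, Finset.card_powerset, card_Kn, card_I₀] at h
  have h2 : Real.sqrt ((2 ^ (8 * n) : ℕ) : ℝ) = 16 ^ n := by
    rw [show ((2 ^ (8 * n) : ℕ) : ℝ) = (16 ^ n) ^ 2 by
      push_cast
      rw [← pow_mul, show (16 : ℝ) = 2 ^ 4 by norm_num, ← pow_mul]
      congr 1
      ring]
    exact Real.sqrt_sq (by positivity)
  rw [h2, ← mul_pow] at h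
  convert h using 2
  norm_num

/-- The projection of the lamp monoid to the permutations of `ℕ ⊕ ℕ`. -/
def lampAct : S₀ →* Equiv.Perm (ℕ ⊕ ℕ) where
  toFun := fun x => act x.pos
  map_one' := map_one act
  map_mul' := fun x y => map_mul act x.pos y.pos

theorem S₀_not_leftAmenable : ¬ LeftAmenable S₀ :=
  not_leftAmenable lampAct ⟨∅, FreeGroup.of false⟩ ⟨∅, FreeGroup.of true⟩ act_false act_true

end Pool.Agent.Lib.MP_122225_al
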