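import Pool.Agent.Lib.MP_122225_al.Defs

/-!
# The walk operator of a family with bounded fibres
-/

open Filter Topology

namespace Pool.Agent.Lib.MP_122225_al

variable {S ι : Type} [Monoid S] [Fintype ι]

open Classical in
theorem walkMatrix_eq (X : ι → S) (s t : S) :
    walkMatrix X s t = (∑ i, if X i * s = t then (1 : ℝ) else 0) / (Fintype.card ι : ℝ) := by
  unfold walkMatrix
  congr 1
  rw [Nat.card_eq_fintype_card, Fintype.card_subtype, Finset.sum_boole]

theorem walkMatrix_nonneg (X : ι → S) (s t : S) : 0 ≤ walkMatrix X s t := by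
  unfold walkMatrix
  positivity

/-- row sums are at most one -/
theorem row_sum_le (X : ι → S) (s : S) (A : Finset S) : ∑ t ∈ A, walkMatrix X s t ≤ 1 := by
  classical
  simp_rw [walkMatrix_eq]
  rw [← Finset.sum_div]
  apply div_le_one_of_le₀ _ (by positivity)
  rw [Finset.sum_comm]
  calc ∑ i : ι, ∑ t ∈ A, (if X i * s = t then (1 : ℝ) else 0)
      ≤ ∑ i : ι, 1 := by
        apply Finset.sum_le_sum
        intro i _
        rw [Finset.sum_ite_eq]
        split_ifs <;> norm_num
    _ = Fintype.card ι := by simp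

/-- entries vanish outside the union of the fibres -/
theorem walkMatrix_eq_zero (X : ι → S) (s t : S) (h : ∀ i, X i * s ≠ t) :
    walkMatrix X s t = 0 := by
  classical
  rw [walkMatrix_eq]
  simp [h]

theorem le_walkMatrix (X : ι → S) (s t : S) (i : ι) (h : X i * s = t) :
    1 / (Fintype.card ι : ℝ) ≤ walkMatrix X s t := by
  classical
  rw [walkMatrix_eq]
  apply div_le_div_of_nonneg_right _ (by positivity)
  calc (1 : ℝ) = if X i * s = t then (1 : ℝ) else 0 := by simp [h]
    _ ≤ _ := Finset.single_le_sum (f := fun i => if X i * s = t then (1 : ℝ) else 0)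
        (fun i _ => by split_ifs <;> norm_num) (Finset.mem_univ i)

/-- Fibres of left multiplication by members of the family have at most `m` elements. -/
def FibreBound (X : ι → S) (m : ℕ) : Prop :=
  ∀ (i : ι) (t : S), ∃ F : Finset S, F.card ≤ m ∧ ∀ s, X i * s = t → s ∈ F

theorem exists_support {X : ι → S} {m : ℕ} (h : FibreBound X m) (t : S) :
    ∃ F : Finset S, (∀ s, s ∉ F → walkMatrix X s t = 0) ∧ ∑ s ∈ F, walkMatrix X s t ≤ m := by
  classical
  choose F hF1 hF2 using fun i => h i t
  refine ⟨Finset.univ.biUnion F, ?_, ?_⟩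
  · intro s hs
    apply walkMatrix_eq_zero
    intro i hi
    exact hs (Finset.mem_biUnion.2 ⟨i, Finset.mem_univ _, hF2 i s hi⟩)
  · simp_rw [walkMatrix_eq]
    rw [← Finset.sum_div, Finset.sum_comm]
    rcases isEmpty_or_nonempty ι with hι | hι
    · simp
    have hc : (0 : ℝ) < Fintype.card ι := by exact_mod_cast Fintype.card_pos
    rw [div_le_iff₀ hc]
    calc ∑ i : ι, ∑ s ∈ Finset.univ.biUnion F, (if X i * s = t then (1 : ℝ) else 0)
        ≤ ∑ i : ι, (m : ℝ) := by
          apply Finset.sum_le_sum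
          intro i _
          rw [Finset.sum_boole]
          have : (Finset.univ.biUnion F).filter (fun s => X i * s = t) ⊆ F i := by
            intro s hs
            exact hF2 i s (Finset.mem_filter.1 hs).2
          exact_mod_cast (Finset.card_le_card this).trans (hF1 i)
      _ = m * Fintype.card ι := by simp [mul_comm]

theorem walkMap_eq_sum {X : ι → S} (v : S → ℝ) (t : S) (F : Finset S)
    (hF : ∀ s, s ∉ F → walkMatrix X s t = 0) :
    walkMap X v t = ∑ s ∈ F, v s * walkMatrix X s t := by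
  unfold walkMap
  apply tsum_eq_sum
  intro s hs
  rw [hF s hs, mul_zero]

/-- The Schur test. -/
theorem schur {X : ι → S} {m : ℕ} (h : FibreBound X m) (v : lp (fun _ : S => ℝ) 2)
    (A : Finset S) : ∑ t ∈ A, (walkMap X v t) ^ 2 ≤ m * ‖v‖ ^ 2 := by
  classical
  choose F hF1 hF2 using fun t => exists_support h t
  have h1 : ∀ t, (walkMap X v t) ^ 2 ≤ m * ∑ s ∈ F t, (v s) ^ 2 * walkMatrix X s t := by
    intro t
    rw [walkMap_eq_sum _ t (F t) (hF1 t)]
    have hcs := Finset.sum_mul_sq_le_sq_mul_sq (F t)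
      (fun s => v s * Real.sqrt (walkMatrix X s t)) (fun s => Real.sqrt (walkMatrix X s t))
    have e1 : ∀ s, v s * Real.sqrt (walkMatrix X s t) * Real.sqrt (walkMatrix X s t) =
        v s * walkMatrix X s t := by
      intro s
      rw [mul_assoc, Real.mul_self_sqrt (walkMatrix_nonneg _ _ _)]
    have e2 : ∀ s, (v s * Real.sqrt (walkMatrix X s t)) ^ 2 = (v s) ^ 2 * walkMatrix X s t := by
      intro s
      rw [mul_pow, Real.sq_sqrt (walkMatrix_nonneg _ _ _)]
    have e3 : ∀ s, (Real.sqrt (walkMatrix X s t)) ^ 2 = walkMatrix X s t := by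
      intro s
      rw [Real.sq_sqrt (walkMatrix_nonneg _ _ _)]
    simp only [e1, e2, e3] at hcs
    refine hcs.trans ?_
    rw [mul_comm (m : ℝ)]
    apply mul_le_mul_of_nonneg_left (hF2 t)
    exact Finset.sum_nonneg (fun s _ => mul_nonneg (sq_nonneg _) (walkMatrix_nonneg _ _ _))
  calc ∑ t ∈ A, (walkMap X v t) ^ 2
      ≤ ∑ t ∈ A, m * ∑ s ∈ F t, (v s) ^ 2 * walkMatrix X s t :=
        Finset.sum_le_sum (fun t _ => h1 t)
    _ = m * ∑ t ∈ A, ∑ s ∈ F t, (v s) ^ 2 * walkMatrix X s t := by rw [Finset.mul_sum]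
    _ ≤ m * ∑ t ∈ A, ∑ s ∈ A.biUnion F, (v s) ^ 2 * walkMatrix X s t := by
        apply mul_le_mul_of_nonneg_left _ (by positivity)
        apply Finset.sum_le_sum
        intro t ht
        apply Finset.sum_le_sum_of_subset_of_nonneg
        · exact Finset.subset_biUnion_of_mem F ht
        · intro s _ _
          exact mul_nonneg (sq_nonneg _) (walkMatrix_nonneg _ _ _)
    _ = m * ∑ s ∈ A.biUnion F, (v s) ^ 2 * ∑ t ∈ A, walkMatrix X s t := by
        rw [Finset.sum_comm]
        simp_rw [Finset.mul_sum]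
    _ ≤ m * ∑ s ∈ A.biUnion F, (v s) ^ 2 := by
        apply mul_le_mul_of_nonneg_left _ (by positivity)
        apply Finset.sum_le_sum
        intro s _
        calc (v s) ^ 2 * ∑ t ∈ A, walkMatrix X s t ≤ (v s) ^ 2 * 1 :=
              mul_le_mul_of_nonneg_left (row_sum_le X s A) (sq_nonneg _)
          _ = (v s) ^ 2 := mul_one _
    _ ≤ m * ‖v‖ ^ 2 := by
        apply mul_le_mul_of_nonneg_left _ (by positivity)
        have := lp.sum_rpow_le_norm_rpow (p := 2) (by norm_num) v (A.biUnion F)
        simpa using this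

theorem walkMap_memℓp {X : ι → S} {m : ℕ} (h : FibreBound X m) (v : lp (fun _ : S => ℝ) 2) :
    Memℓp (walkMap X v) 2 := by
  apply memℓp_gen' (C := m * ‖v‖ ^ 2)
  intro A
  have := schur h v A
  simpa using this

theorem walkDefined {X : ι → S} {m : ℕ} (h : FibreBound X m) : WalkDefined X := by
  intro v hv
  refine ⟨fun t => ?_, walkMap_memℓp h ⟨v, hv⟩⟩
  obtain ⟨F, hF, -⟩ := exists_support h t
  apply summable_of_ne_finset_zero (s := F)
  intro s hs
  rw [hF s hs, mul_zero]

/-- The walk operator. -/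
noncomputable def walkOp {X : ι → S} {m : ℕ} (h : FibreBound X m) :
    lp (fun _ : S => ℝ) 2 →L[ℝ] lp (fun _ : S => ℝ) 2 :=
  LinearMap.mkContinuous
    { toFun := fun v => ⟨walkMap X v, walkMap_memℓp h v⟩
      map_add' := by
        intro v w
        ext t
        obtain ⟨F, hF, -⟩ := exists_support h t
        change walkMap X (v + w) t = walkMap X v t + walkMap X w t
        rw [walkMap_eq_sum _ t F hF, walkMap_eq_sum _ t F hF, walkMap_eq_sum _ t F hF,
          ← Finset.sum_add_distrib]
        apply Finset.sum_congr rfl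
        intro s _
        simp [add_mul]
      map_smul' := by
        intro c v
        ext t
        obtain ⟨F, hF, -⟩ := exists_support h t
        change walkMap X (c • v) t = c * walkMap X v t
        rw [walkMap_eq_sum _ t F hF, walkMap_eq_sum _ t F hF, Finset.mul_sum]
        apply Finset.sum_congr rfl
        intro s _
        simp [mul_assoc] }
    (Real.sqrt m) (by
      intro v
      apply lp.norm_le_of_forall_sum_le (p := 2) (by norm_num) (by positivity)
      intro A
      have := schur h v A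
      simp only [LinearMap.coe_mk, AddHom.coe_mk, Real.norm_eq_abs, ENNReal.toReal_ofNat,
        Real.rpow_ofNat, sq_abs]
      rw [mul_pow, Real.sq_sqrt (by positivity)]
      exact this)

theorem isWalkOperator {X : ι → S} {m : ℕ} (h : FibreBound X m) :
    IsWalkOperator X (walkOp h) := fun _ => rfl

theorem walkOp_apply {X : ι → S} {m : ℕ} (h : FibreBound X m) (v : lp (fun _ : S => ℝ) 2)
    (t : S) : (walkOp h v) t = walkMap X v t := rfl

theorem walkOp_nonneg {X : ι → S} {m : ℕ} (h : FibreBound X m) (v : lp (fun _ : S => ℝ) 2)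
    (hv : ∀ s, 0 ≤ v s) (t : S) : 0 ≤ (walkOp h v) t := by
  rw [walkOp_apply]
  obtain ⟨F, hF, -⟩ := exists_support h t
  rw [walkMap_eq_sum _ t F hF]
  exact Finset.sum_nonneg (fun s _ => mul_nonneg (hv s) (walkMatrix_nonneg _ _ _))

/-- One step: the mass at `t` is at least the mass of any finite part of a fibre over `k`. -/
theorem walkOp_ge {X : ι → S} {m : ℕ} (h : FibreBound X m) (v : lp (fun _ : S => ℝ) 2)
    (hv : ∀ s, 0 ≤ v s) (i : ι) (t : S) (G : Finset S) (hG : ∀ s ∈ G, X i * s = t) :
    1 / (Fintype.card ι : ℝ) * ∑ s ∈ G, v s ≤ (walkOp h v) t := by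
  classical
  rw [walkOp_apply]
  obtain ⟨F, hF, -⟩ := exists_support h t
  rw [walkMap_eq_sum _ t (F ∪ G) (fun s hs => hF s (fun h => hs (Finset.mem_union_left _ h)))]
  calc 1 / (Fintype.card ι : ℝ) * ∑ s ∈ G, v s
      = ∑ s ∈ G, v s * (1 / (Fintype.card ι : ℝ)) := by
        rw [Finset.mul_sum]
        exact Finset.sum_congr rfl (fun s _ => mul_comm _ _)
    _ ≤ ∑ s ∈ G, v s * walkMatrix X s t :=
        Finset.sum_le_sum (fun s hs => mul_le_mul_of_nonneg_left
          (le_walkMatrix X s t i (hG s hs)) (hv s))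
    _ ≤ ∑ s ∈ F ∪ G, v s * walkMatrix X s t :=
        Finset.sum_le_sum_of_subset_of_nonneg Finset.subset_union_right
          (fun s _ _ => mul_nonneg (hv s) (walkMatrix_nonneg _ _ _))

/-- Iterated lower bound along the powers of one generator. -/
theorem walkOp_pow_ge {X : ι → S} {m : ℕ} (h : FibreBound X m) (i : ι) (n : ℕ) :
    ∀ (v : lp (fun _ : S => ℝ) 2), (∀ s, 0 ≤ v s) → ∀ (t : S) (G : Finset S),
      (∀ s ∈ G, X i ^ n * s = t) →
      (1 / (Fintype.card ι : ℝ)) ^ n * ∑ s ∈ G, v s ≤ ((walkOp h ^ n) v) t := by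
  classical
  induction n with
  | zero =>
    intro v hv t G hG
    simp only [pow_zero, one_mul]
    change ∑ s ∈ G, v s ≤ v t
    have : G ⊆ {t} := by
      intro s hs
      have := hG s hs
      simp only [pow_zero, one_mul] at this
      simp [this]
    calc ∑ s ∈ G, v s ≤ ∑ s ∈ ({t} : Finset S), v s :=
          Finset.sum_le_sum_of_subset_of_nonneg this (fun s _ _ => hv s)
      _ = v t := by simp
  | succ n ih =>
    intro v hv t G hG
    have h1 := ih (walkOp h v) (walkOp_nonneg h v hv) t (G.image (fun s => X i * s)) (by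
      intro u hu
      obtain ⟨s, hs, rfl⟩ := Finset.mem_image.1 hu
      rw [← mul_assoc, ← pow_succ]
      exact hG s hs)
    rw [pow_succ (walkOp h)]
    change _ ≤ ((walkOp h ^ n) (walkOp h v)) t
    refine le_trans ?_ h1
    have h2 : ∀ u ∈ G.image (fun s => X i * s),
        1 / (Fintype.card ι : ℝ) * ∑ s ∈ G.filter (fun s => X i * s = u), v s ≤
          (walkOp h v) u := by
      intro u _
      exact walkOp_ge h v hv i u _ (fun s hs => (Finset.mem_filter.1 hs).2)
    calc (1 / (Fintype.card ι : ℝ)) ^ (n + 1) * ∑ s ∈ G, v s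
        = (1 / (Fintype.card ι : ℝ)) ^ n * (∑ u ∈ G.image (fun s => X i * s),
            1 / (Fintype.card ι : ℝ) * ∑ s ∈ G.filter (fun s => X i * s = u), v s) := by
          have hf : ∑ u ∈ G.image (fun s => X i * s),
              ∑ s ∈ G.filter (fun s => X i * s = u), v s = ∑ s ∈ G, v s :=
            Finset.sum_fiberwise_of_maps_to (fun s hs => Finset.mem_image_of_mem _ hs) _
          rw [← Finset.mul_sum, hf]
          ring
      _ ≤ _ := mul_le_mul_of_nonneg_left (Finset.sum_le_sum h2) (by positivity)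

/-- Lower bound for the norm of the powers. -/
theorem norm_pow_ge {X : ι → S} {m : ℕ} (h : FibreBound X m) (i : ι) (n : ℕ) (t : S)
    (G : Finset S) (hG : ∀ s ∈ G, X i ^ n * s = t) :
    (1 / (Fintype.card ι : ℝ)) ^ n * Real.sqrt G.card ≤ ‖walkOp h ^ n‖ := by
  classical
  rcases G.eq_empty_or_nonempty with rfl | hne
  · simp
  set v : lp (fun _ : S => ℝ) 2 := ∑ s ∈ G, lp.single 2 s (1 : ℝ) with hv
  have hvs : ∀ s, v s = if s ∈ G then 1 else 0 := by
    intro s
    rw [hv, lp.coeFn_sum, Finset.sum_apply]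
    simp only [lp.single_apply, Pi.single_apply]
    rw [Finset.sum_ite_eq]
  have hnorm : ‖v‖ ^ 2 = G.card := by
    have := lp.norm_sum_single (p := 2) (by norm_num) (fun _ : S => (1 : ℝ)) G
    simp only [ENNReal.toReal_ofNat, Real.rpow_ofNat, norm_one, one_pow, Finset.sum_const,
      nsmul_eq_mul, mul_one] at this
    exact this
  have hnorm' : ‖v‖ = Real.sqrt G.card := by
    rw [← hnorm, Real.sqrt_sq (norm_nonneg _)]
  have h1 := walkOp_pow_ge h i n v (fun s => by rw [hvs]; split_ifs <;> norm_num) t G hG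
  have h2 : ∑ s ∈ G, v s = G.card := by
    rw [Finset.sum_congr rfl (fun s hs => by rw [hvs, if_pos hs] : ∀ s ∈ G, v s = 1)]
    simp
  rw [h2] at h1
  have h3 : ((walkOp h ^ n) v) t ≤ ‖(walkOp h ^ n) v‖ :=
    (le_abs_self _).trans (lp.norm_apply_le_norm (by norm_num) ((walkOp h ^ n) v) t)
  have h4 := (walkOp h ^ n).le_opNorm v
  have hpos : 0 < Real.sqrt G.card := Real.sqrt_pos.2 (by exact_mod_cast hne.card_pos)
  have h5 : (1 / (Fintype.card ι : ℝ)) ^ n * G.card ≤ ‖walkOp h ^ n‖ * Real.sqrt G.card := by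
    rw [← hnorm']
    exact h1.trans (h3.trans h4)
  have h6 : Real.sqrt G.card * Real.sqrt G.card = (G.card : ℝ) :=
    Real.mul_self_sqrt (by positivity)
  have h7 : (1 / (Fintype.card ι : ℝ)) ^ n * Real.sqrt G.card * Real.sqrt G.card ≤
      ‖walkOp h ^ n‖ * Real.sqrt G.card := by
    rw [mul_assoc, h6]
    exact h5
  exact le_of_mul_le_mul_right h7 hpos

/-- The norm of the walk operator is at most the square root of the fibre bound. -/
theorem norm_walkOp_le {X : ι → S} {m : ℕ} (h : FibreBound X m) :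
    ‖walkOp h‖ ≤ Real.sqrt m :=
  LinearMap.mkContinuous_norm_le _ (Real.sqrt_nonneg _) _

/-- If each element of `A` is reached from each element of `G`, and `A`, `G` and the index set
have the same size, then the norm of the walk operator is at least one. -/
theorem one_le_norm_walkOp {X : ι → S} {m : ℕ} (h : FibreBound X m) (G A : Finset S)
    (hG : G.card = Fintype.card ι) (hA : A.card = Fintype.card ι) (hne : G.Nonempty)
    (hGA : ∀ u ∈ A, ∀ s ∈ G, ∃ i, X i * s = u) : 1 ≤ ‖walkOp h‖ := by
  classical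
  set v : lp (fun _ : S => ℝ) 2 := ∑ s ∈ G, lp.single 2 s (1 : ℝ) with hv
  have hvs : ∀ s, v s = if s ∈ G then 1 else 0 := by
    intro s
    rw [hv, lp.coeFn_sum, Finset.sum_apply]
    simp only [lp.single_apply, Pi.single_apply]
    rw [Finset.sum_ite_eq]
  have hnorm : ‖v‖ ^ 2 = G.card := by
    have := lp.norm_sum_single (p := 2) (by norm_num) (fun _ : S => (1 : ℝ)) G
    simp only [ENNReal.toReal_ofNat, Real.rpow_ofNat, norm_one, one_pow, Finset.sum_const,
      nsmul_eq_mul, mul_one] at this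
    exact this
  have hk : (0 : ℝ) < Fintype.card ι := by rw [← hG]; exact_mod_cast hne.card_pos
  have h1 : ∀ u ∈ A, 1 ≤ (walkOp h v) u := by
    intro u hu
    rw [walkOp_apply]
    obtain ⟨F, hF, -⟩ := exists_support h u
    rw [walkMap_eq_sum _ u (F ∪ G) (fun s hs => hF s (fun h => hs (Finset.mem_union_left _ h)))]
    calc (1 : ℝ) = ∑ s ∈ G, 1 / (Fintype.card ι : ℝ) := by
          rw [Finset.sum_const, hG, nsmul_eq_mul]
          field_simp
      _ ≤ ∑ s ∈ G, v s * walkMatrix X s u := by
          apply Finset.sum_le_sum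
          intro s hs
          obtain ⟨i, hi⟩ := hGA u hu s hs
          rw [hvs, if_pos hs, one_mul]
          exact le_walkMatrix X s u i hi
      _ ≤ ∑ s ∈ F ∪ G, v s * walkMatrix X s u :=
          Finset.sum_le_sum_of_subset_of_nonneg Finset.subset_union_right
            (fun s _ _ => mul_nonneg (by rw [hvs]; split_ifs <;> norm_num)
              (walkMatrix_nonneg _ _ _))
  have h2 : (A.card : ℝ) ≤ ‖walkOp h v‖ ^ 2 := by
    have := lp.sum_rpow_le_norm_rpow (p := 2) (by norm_num) (walkOp h v) A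
    simp only [ENNReal.toReal_ofNat, Real.rpow_ofNat, Real.norm_eq_abs, sq_abs] at this
    refine le_trans ?_ this
    calc (A.card : ℝ) = ∑ u ∈ A, (1 : ℝ) := by simp
      _ ≤ _ := Finset.sum_le_sum (fun u hu => by
          have := h1 u hu
          nlinarith)
  have h3 : ‖v‖ ≤ ‖walkOp h v‖ := by
    have : ‖v‖ ^ 2 ≤ ‖walkOp h v‖ ^ 2 := by
      rw [hnorm, hG, ← hA]
      exact h2
    exact (sq_le_sq₀ (norm_nonneg _) (norm_nonneg _)).1 this
  have h4 := (walkOp h).le_opNorm v
  have hvpos : 0 < ‖v‖ := by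
    have h5 : 0 < ‖v‖ ^ 2 := by
      rw [hnorm, hG]
      exact hk
    by_contra hcon
    have h6 : ‖v‖ = 0 := le_antisymm (not_lt.1 hcon) (norm_nonneg _)
    rw [h6] at h5
    norm_num at h5
  have h5 : 1 * ‖v‖ ≤ ‖walkOp h‖ * ‖v‖ := by
    rw [one_mul]
    exact h3.trans h4
  exact le_of_mul_le_mul_right h5 hvpos

/-- Existence of the spectral radius (Fekete) together with a lower bound. -/
theorem exists_spectralRadius {S : Type}
    (T : Op S) (c : ℝ) (hc : 0 < c)
    (h : ∀ n : ℕ, c ^ n ≤ ‖T ^ n‖) : ∃ ρ, HasSpectralRadius T ρ ∧ c ≤ ρ ∧ ρ ≤ opNorm T := by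
  have hpos : ∀ n, 0 < ‖T ^ n‖ := fun n => lt_of_lt_of_le (pow_pos hc n) (h n)
  have hsub : Subadditive (fun n => Real.log ‖T ^ n‖) := by
    intro a b
    simp only
    rw [← Real.log_mul (hpos a).ne' (hpos b).ne', pow_add]
    apply Real.log_le_log
    · rw [← pow_add]; exact hpos _
    · exact norm_mul_le _ _
  have hbdd : BddBelow (Set.range fun n : ℕ => (fun n : ℕ => Real.log ‖T ^ n‖) n / n) := by
    refine ⟨min (Real.log c) 0, ?_⟩
    rintro _ ⟨n, rfl⟩
    rcases Nat.eq_zero_or_pos n with rfl | hn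
    · simp
    · have hn' : (0 : ℝ) < n := by exact_mod_cast hn
      apply (min_le_left _ _).trans
      simp only
      rw [le_div_iff₀ hn', mul_comm, ← Real.log_pow]
      exact Real.log_le_log (pow_pos hc n) (h n)
  have hlim := hsub.tendsto_lim hbdd
  have hlim2 := (Real.continuous_exp.tendsto _).comp hlim
  have heq : (fun n : ℕ => ‖T ^ n‖ ^ (1 / (n : ℝ))) =
      (Real.exp ∘ fun n : ℕ => Real.log ‖T ^ n‖ / n) := by
    funext n
    rw [Real.rpow_def_of_pos (hpos n)]
    simp [div_eq_mul_inv]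
  refine ⟨Real.exp hsub.lim, ?_, ?_, ?_⟩
  · unfold HasSpectralRadius opNorm opPow
    rw [heq]
    exact hlim2
  · apply ge_of_tendsto hlim2
    filter_upwards [eventually_gt_atTop 0] with n hn
    have hn' : (0 : ℝ) < n := by exact_mod_cast hn
    simp only [Function.comp]
    rw [← Real.log_le_iff_le_exp hc, le_div_iff₀ hn', mul_comm, ← Real.log_pow]
    exact Real.log_le_log (pow_pos hc n) (h n)
  · apply le_of_tendsto hlim2
    filter_upwards [eventually_gt_atTop 0] with n hn
    have hn' : (0 : ℝ) < n := by exact_mod_cast hn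
    have hT : 0 < ‖T‖ := by
      have := hpos 1
      rwa [pow_one] at this
    simp only [Function.comp, opNorm]
    rw [← Real.le_log_iff_exp_le hT, div_le_iff₀ hn', mul_comm, ← Real.log_pow]
    exact Real.log_le_log (hpos n) (norm_pow_le' T hn)

end Pool.Agent.Lib.MP_122225_al
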